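import Mathlib

set_option autoImplicit false

namespace Pool.Agent.Results.MP_c90a8c_co.Recurrence

open Finset

/-- area(γ) = Σ γ_i - #{i : γ_i > 0} -/
def area {n : ℕ} (γ : Fin n → ℕ) : ℕ := ∑ i, γ i - (univ.filter (fun i => 0 < γ i)).card

/-- dinv(γ, π) -/
def dinv {n : ℕ} (γ : Fin n → ℕ) (π : Fin n → ℕ+) : ℕ :=
  (univ.filter (fun p : Fin n × Fin n => p.1 < p.2 ∧ γ p.1 = γ p.2 ∧ π p.2 < π p.1)).card +
  (univ.filter (fun p : Fin n × Fin n => p.1 < p.2 ∧ γ p.2 = γ p.1 + 1 ∧ π p.1 < π p.2)).card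

/-- exponent vector of the monomial x^π -/
noncomputable def content {n : ℕ} (π : Fin n → ℕ+) : ℕ+ →₀ ℕ := ∑ i, Finsupp.single (π i) 1

/-- the pairs (γ, π) contributing the monomial q^a t^b x^m to L_v (`true` is the letter 1) -/
def terms {n : ℕ} (v : Fin n → Bool) (m : ℕ+ →₀ ℕ) (a b : ℕ) :
    Set ((Fin n → ℕ) × (Fin n → ℕ+)) :=
  {w | (∀ i, w.1 i = 0 ↔ v i = true) ∧ area w.1 = a ∧ dinv w.1 w.2 = b ∧ content w.2 = m}

/-- The link symmetric function L_v, a power series in x_1, x_2, … whose coefficients are power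
series in q (variable 0) and t (variable 1): the coefficient of q^a t^b x^m is the number of
pairs (γ, π) in the (finite, see `terms_finite`) set `terms v m a b`. -/
noncomputable def L {n : ℕ} (v : Fin n → Bool) : MvPowerSeries ℕ+ (MvPowerSeries (Fin 2) ℤ) :=
  fun m => (fun e => ((terms v m (e 0) (e 1)).ncard : ℤ) : MvPowerSeries (Fin 2) ℤ)

theorem area_eq {n : ℕ} (γ : Fin n → ℕ) : area γ = ∑ i, (γ i - 1) := by
  have h : ∑ i, γ i = ∑ i, (γ i - 1) + (univ.filter (fun i => 0 < γ i)).card := by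
    rw [Finset.card_filter, ← Finset.sum_add_distrib]
    apply Finset.sum_congr rfl
    intro i _
    split_ifs <;> omega
  rw [area, h]
  omega

theorem terms_finite {n : ℕ} (v : Fin n → Bool) (m : ℕ+ →₀ ℕ) (a b : ℕ) :
    (terms v m a b).Finite := by
  have h1 : (Set.pi Set.univ (fun _ : Fin n => Set.Iic (a + 1))).Finite :=
    Set.Finite.pi (fun _ => Set.finite_Iic _)
  have h2 : (Set.pi Set.univ (fun _ : Fin n => (m.support : Set ℕ+))).Finite :=
    Set.Finite.pi (fun _ => m.support.finite_toSet)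
  apply (h1.prod h2).subset
  rintro ⟨γ, π⟩ ⟨_, ha, _, hm⟩
  refine ⟨fun i _ => ?_, fun i _ => ?_⟩
  · rw [area_eq] at ha
    have := Finset.single_le_sum (f := fun i => γ i - 1) (fun _ _ => Nat.zero_le _) (mem_univ i)
    simp only [Set.mem_Iic] at ha this ⊢
    omega
  · simp only [Finset.mem_coe, Finsupp.mem_support_iff, ← hm, content, Finsupp.finsetSum_apply]
    intro h0
    have := (Finset.sum_eq_zero_iff.1 h0) i (mem_univ i)
    simp at this

def wt (a : ℕ) (p : ℕ+) (b : ℕ) (r : ℕ+) : ℕ :=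
  (if a = b ∧ r < p then 1 else 0) + (if b = a + 1 ∧ p < r then 1 else 0)

theorem dinv_eq {n : ℕ} (γ : Fin n → ℕ) (π : Fin n → ℕ+) :
    dinv γ π = ∑ i, ∑ j, if i < j then wt (γ i) (π i) (γ j) (π j) else 0 := by
  rw [dinv, Finset.card_filter, Finset.card_filter, ← Finset.sum_add_distrib,
    Fintype.sum_prod_type]
  apply Finset.sum_congr rfl
  intro i _
  apply Finset.sum_congr rfl
  intro j _
  by_cases h : i < j <;> simp [h, wt]

theorem dinv_rot {n : ℕ} (γ : Fin n → ℕ) (π : Fin n → ℕ+) (c : ℕ) (p : ℕ+) :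
    dinv (Fin.snoc γ (c + 1) : Fin (n + 1) → ℕ) (Fin.snoc π p : Fin (n + 1) → ℕ+) =
      dinv (Fin.cons c γ : Fin (n + 1) → ℕ) (Fin.cons p π : Fin (n + 1) → ℕ+) := by
  have A : dinv (Fin.snoc γ (c + 1) : Fin (n + 1) → ℕ) (Fin.snoc π p : Fin (n + 1) → ℕ+) =
      (∑ i, ∑ j, if i < j then wt (γ i) (π i) (γ j) (π j) else 0) +
        ∑ i, wt (γ i) (π i) (c + 1) p := by
    rw [dinv_eq]
    simp [Fin.sum_univ_castSucc, Finset.sum_add_distrib, not_lt.2 (Fin.le_last _)]
  have B : dinv (Fin.cons c γ : Fin (n + 1) → ℕ) (Fin.cons p π : Fin (n + 1) → ℕ+) =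
      ∑ i, wt c p (γ i) (π i) +
      (∑ i, ∑ j, if i < j then wt (γ i) (π i) (γ j) (π j) else 0) := by
    rw [dinv_eq]
    simp [Fin.sum_univ_succ]
  rw [A, B, add_comm]
  congr 1
  apply Finset.sum_congr rfl
  intro i _
  simp only [wt, add_left_inj]
  rw [add_comm]

theorem content_rot {n : ℕ} (π : Fin n → ℕ+) (p : ℕ+) :
    content (Fin.snoc π p : Fin (n + 1) → ℕ+) = content (Fin.cons p π : Fin (n + 1) → ℕ+) := by
  rw [content, content, Fin.sum_univ_castSucc, Fin.sum_univ_succ]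
  simp [add_comm]

theorem area_snoc {n : ℕ} (γ : Fin n → ℕ) (c : ℕ) :
    area (Fin.snoc γ (c + 1) : Fin (n + 1) → ℕ) = c + ∑ i, (γ i - 1) := by
  rw [area_eq, Fin.sum_univ_castSucc]
  simp [add_comm]

theorem area_cons {n : ℕ} (γ : Fin n → ℕ) (c : ℕ) :
    area (Fin.cons c γ : Fin (n + 1) → ℕ) = (c - 1) + ∑ i, (γ i - 1) := by
  rw [area_eq, Fin.sum_univ_succ]
  simp

def rot {n : ℕ} (w : (Fin (n + 1) → ℕ) × (Fin (n + 1) → ℕ+)) :
    (Fin (n + 1) → ℕ) × (Fin (n + 1) → ℕ+) :=
  (Fin.snoc (Fin.tail w.1) (w.1 0 + 1), Fin.snoc (Fin.tail w.2) (w.2 0))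

theorem rot_inj {n : ℕ} : Function.Injective (rot (n := n)) := by
  rintro ⟨γ, π⟩ ⟨γ', π'⟩ h
  simp only [rot, Prod.mk.injEq, Fin.snoc_inj, add_left_inj] at h
  obtain ⟨⟨h1, h2⟩, h3, h4⟩ := h
  rw [Prod.mk.injEq, ← Fin.cons_self_tail γ, ← Fin.cons_self_tail π, h1, h2, h3, h4,
    Fin.cons_self_tail, Fin.cons_self_tail]
  exact ⟨rfl, rfl⟩

theorem terms_split {n : ℕ} (v : Fin n → Bool) (m : ℕ+ →₀ ℕ) (a b : ℕ) :
    terms (Fin.snoc v false : Fin (n + 1) → Bool) m a b =
      rot '' (terms (Fin.cons true v : Fin (n + 1) → Bool) m a b ∪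
        {w | 1 ≤ a ∧ w ∈ terms (Fin.cons false v : Fin (n + 1) → Bool) m (a - 1) b}) := by
  ext ⟨γ, π⟩
  constructor
  · rintro ⟨h1, h2, h3, h4⟩
    have hl := h1 (Fin.last n)
    simp only [Fin.snoc_last, Bool.false_eq_true, iff_false] at hl
    obtain ⟨c, hc⟩ := Nat.exists_eq_succ_of_ne_zero hl
    have eγ : γ = Fin.snoc (Fin.init γ) (c + 1) := by
      have hc' : c + 1 = γ (Fin.last n) := hc.symm
      rw [hc', Fin.snoc_init_self]
    have eπ : π = Fin.snoc (Fin.init π) (π (Fin.last n)) := (Fin.snoc_init_self π).symm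
    generalize Fin.init γ = g at eγ
    generalize Fin.init π = s at eπ
    generalize π (Fin.last n) = p at eπ
    subst eγ
    subst eπ
    simp only [area_snoc, dinv_rot, content_rot] at h2 h3 h4
    have hv : ∀ i, g i = 0 ↔ v i = true := fun i => by simpa using h1 i.castSucc
    refine ⟨(Fin.cons c g, Fin.cons p s), ?_, by simp [rot]⟩
    by_cases h0 : c = 0
    · left
      refine ⟨?_, ?_, h3, h4⟩
      · intro i
        refine Fin.cases ?_ (fun i => ?_) i
        · simp [h0]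
        · simpa using hv i
      · simp only [area_cons]; omega
    · right
      refine ⟨by omega, ?_, ?_, h3, h4⟩
      · intro i
        refine Fin.cases ?_ (fun i => ?_) i
        · simp [h0]
        · simpa using hv i
      · simp only [area_cons]; omega
  · rintro ⟨⟨γ', π'⟩, hw, h⟩
    rw [← h]
    rw [← Fin.cons_self_tail γ', ← Fin.cons_self_tail π'] at hw
    simp only [rot]
    generalize Fin.tail γ' = g at hw
    generalize Fin.tail π' = s at hw
    generalize γ' 0 = c at hw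
    generalize π' 0 = p at hw
    have key : ∀ (u : Bool) (a' : ℕ), (Fin.cons c g, Fin.cons p s) ∈
        terms (Fin.cons u v : Fin (n + 1) → Bool) m a' b → c + ∑ i, (g i - 1) = a →
        ((Fin.snoc g (c + 1), Fin.snoc s p) : (Fin (n + 1) → ℕ) × (Fin (n + 1) → ℕ+)) ∈
          terms (Fin.snoc v false : Fin (n + 1) → Bool) m a b := by
      rintro u a' ⟨h1, h2, h3, h4⟩ ha
      refine ⟨?_, ?_, ?_, ?_⟩
      · intro i
        refine Fin.lastCases ?_ (fun i => ?_) i
        · simp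
        · simpa using h1 i.succ
      · simp only [area_snoc]; exact ha
      · simp only [dinv_rot]; exact h3
      · simp only [content_rot]; exact h4
    rcases hw with hw | ⟨ha, hw⟩
    · refine key _ _ hw ?_
      have h0 : c = 0 := by simpa using hw.1 0
      have h2 := hw.2.1
      simp only [area_cons] at h2
      omega
    · refine key _ _ hw ?_
      have h0 : c ≠ 0 := by simpa using hw.1 0
      have h2 := hw.2.1
      simp only [area_cons] at h2
      omega

theorem count {n : ℕ} (v : Fin n → Bool) (m : ℕ+ →₀ ℕ) (a b : ℕ) :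
    (terms (Fin.snoc v false : Fin (n + 1) → Bool) m a b).ncard =
      (terms (Fin.cons true v : Fin (n + 1) → Bool) m a b).ncard +
        if 1 ≤ a then (terms (Fin.cons false v : Fin (n + 1) → Bool) m (a - 1) b).ncard else 0 := by
  rw [terms_split, Set.ncard_image_of_injective _ rot_inj, Set.ncard_union_eq ?_
    (terms_finite _ _ _ _) ((terms_finite _ _ (a - 1) b).subset (fun w hw => hw.2))]
  · congr 1
    split_ifs with h <;> simp [h]
  · rw [Set.disjoint_left]
    rintro w h1 ⟨_, h2⟩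
    have e1 := h1.1 0
    have e2 := h2.1 0
    simp at e1 e2
    exact e2 e1

theorem result (n : ℕ) (v : Fin n → Bool) :
    L (Fin.snoc v false : Fin (n + 1) → Bool) =
      L (Fin.cons true v : Fin (n + 1) → Bool) +
        MvPowerSeries.C (MvPowerSeries.X 0 : MvPowerSeries (Fin 2) ℤ) *
          L (Fin.cons false v : Fin (n + 1) → Bool) := by
  ext m e
  rw [map_add, MvPowerSeries.coeff_C_mul, map_add, MvPowerSeries.X_def,
    MvPowerSeries.coeff_monomial_mul]
  change ((terms _ m (e 0) (e 1)).ncard : ℤ) = ((terms _ m (e 0) (e 1)).ncard : ℤ) +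
    if Finsupp.single 0 1 ≤ e then 1 * ((terms _ m ((e - Finsupp.single 0 1 : Fin 2 →₀ ℕ) 0)
      ((e - Finsupp.single 0 1 : Fin 2 →₀ ℕ) 1)).ncard : ℤ) else 0
  rw [count]
  simp [Finsupp.single_le_iff]

end Pool.Agent.Results.MP_c90a8c_co.Recurrence
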